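import Pool.Agent.Q281.AD.Count

set_option autoImplicit false

/-!
# The generating function of the relation, multiplied by a power of the Euler product
-/

namespace Pool.Agent.Q281.AD

open Finset PowerSeries
open Pool.Agent.Q132.EP
open Pool.Agent.H397R2.PP
open Pool.Agent.H307R2.OP (S)
open Pool.Agent.Q41.PT (F1 f1 coeff_D zmod_cases)

/-- the combination `∑ c_i D ^ (4 ^ i)` -/
noncomputable def EE (m : ℕ) (C : ℕ → Finset ℕ) (D : S) : S :=
  ∑ i ∈ range (m + 1), ∑ a ∈ C i, X ^ a * D ^ (4 ^ i)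

lemma coeff_pow4 (D : S) (i a n : ℕ) : coeff n (X ^ a * D ^ (4 ^ i)) =
    if a ≤ n ∧ 4 ^ i ∣ n - a then coeff ((n - a) / 4 ^ i) D else 0 := by
  rw [coeff_X_pow_mul']
  by_cases h : a ≤ n
  · rw [if_pos h, pow_eq_expand' (4 ^ i) (2 * i) (by positivity) (by rw [pow_mul]; norm_num), coeff_expand]
    by_cases h2 : 4 ^ i ∣ n - a
    · rw [if_pos h2, if_pos ⟨h, h2⟩]
    · rw [if_neg h2, if_neg fun h3 => h2 h3.2]
  · rw [if_neg h, if_neg fun h3 => h h3.1]

lemma coeff_EE (m : ℕ) (C : ℕ → Finset ℕ) (D : S) (n : ℕ) : coeff n (EE m C D) =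
    ∑ i ∈ range (m + 1), ∑ a ∈ (C i).filter (fun a => a ≤ n ∧ 4 ^ i ∣ n - a), coeff ((n - a) / 4 ^ i) D := by
  unfold EE
  rw [map_sum]
  refine Finset.sum_congr rfl fun i _ => ?_
  rw [map_sum, Finset.sum_filter]
  exact Finset.sum_congr rfl fun a _ => coeff_pow4 D i a n

lemma EE_mul (m K : ℕ) (hK : m ≤ K) (C : ℕ → Finset ℕ) (D : S) (n : ℕ) :
    coeff n (EE m C D * f1 ^ (4 ^ K)) =
    ∑ i ∈ range (m + 1), ∑ a ∈ (C i).filter (fun a => a ≤ n ∧ 4 ^ i ∣ n - a),
      coeff ((n - a) / 4 ^ i) (D * f1 ^ (4 ^ (K - i))) := by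
  unfold EE
  rw [Finset.sum_mul, map_sum]
  refine Finset.sum_congr rfl fun i hi => ?_
  rw [mem_range] at hi
  rw [Finset.sum_mul, map_sum, Finset.sum_filter]
  refine Finset.sum_congr rfl fun a _ => ?_
  rw [← coeff_pow4]
  congr 1
  rw [mul_assoc, mul_pow, ← pow_mul]
  congr 3
  rw [← pow_add]
  congr 1
  omega

/-- the pattern restricted to a class -/
noncomputable def Dr (A : Finset ℕ) (β ρ : ℕ) : S :=
  PowerSeries.mk fun n => if n % 2 ^ β = ρ % 2 ^ β then coeff n (PA A) else 0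

lemma coeff_Dr_mul (A : Finset ℕ) (β ρ j v m : ℕ) (hβ : β ≤ 2 * j) (hm : 3 * m + 1 = 4 ^ j) :
    coeff v (Dr A β ρ * f1 ^ (4 ^ j)) = if v % 2 ^ β = ρ % 2 ^ β then
      ∑ a ∈ A.filter (· ≤ v), coeff (8 * (v - a) + m) (Db ^ m) else 0 := by
  have h4 : (4 : ℕ) ^ j = 2 ^ (2 * j) := by rw [pow_mul]; norm_num
  rw [h4, coeff_mul_expand, ← coeff_PA_mul A j m v hm, coeff_mul_expand]
  have key : ∀ p ∈ Finset.HasAntidiagonal.antidiagonal v,
      coeff p.1 (Dr A β ρ) * coeff p.2 (PowerSeries.expand (2 ^ (2 * j)) (by positivity) f1) =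
      if v % 2 ^ β = ρ % 2 ^ β then
        coeff p.1 (PA A) * coeff p.2 (PowerSeries.expand (2 ^ (2 * j)) (by positivity) f1) else 0 := by
    intro p hp
    rw [Finset.HasAntidiagonal.mem_antidiagonal] at hp
    rw [coeff_expand]
    by_cases hd : 2 ^ (2 * j) ∣ p.2
    · have h1 : v % 2 ^ β = p.1 % 2 ^ β := by
        obtain ⟨t, ht⟩ := (pow_dvd_pow 2 hβ).trans hd
        rw [← hp, ht, Nat.add_mul_mod_self_left]
      unfold Dr
      rw [coeff_mk, ← h1]
      split_ifs <;> simp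
    · rw [if_neg hd]
      split_ifs <;> simp
  rw [Finset.sum_congr rfl key]
  split_ifs <;> simp

lemma cnt5_four (i P : ℕ) (hP : 0 < P) : cnt5 (4 ^ i * P) ≤ cnt5 P := by
  unfold cnt5
  apply Finset.card_le_card
  intro q hq
  rw [mem_filter, Nat.mem_primeFactors] at hq ⊢
  obtain ⟨⟨h1, h2, h3⟩, h4, h5⟩ := hq
  refine ⟨⟨h1, ?_, by omega⟩, fun h => h4 (h.mul_left _), h5⟩
  rcases (Nat.Prime.dvd_mul h1).1 h2 with h6 | h6
  · have h7 := h1.dvd_of_dvd_pow h6
    have h8 : q ≤ 4 := Nat.le_of_dvd (by norm_num) h7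
    omega
  · exact h6

/-- the shifts -/
def sh (s0 i mi a a' : ℕ) : ℤ := 8 * a + 8 * 4 ^ i * a' + mi - 8 * s0

/-- `(4 ^ i - 1) / 3` -/
def mu (i : ℕ) : ℕ := (4 ^ i - 1) / 3

lemma mu_spec (i : ℕ) : 3 * mu i + 1 = 4 ^ i := by
  have h1 : 4 ^ i % 3 = 1 := by rw [Nat.pow_mod]; simp
  have h2 := Nat.div_add_mod (4 ^ i) 3
  unfold mu
  omega

/-- the set of the shifts -/
def HH (m : ℕ) (C : ℕ → Finset ℕ) (A : Finset ℕ) (s0 : ℕ) : Finset ℤ :=
  ((range (m + 1)).biUnion fun i => (C i ×ˢ A).image fun x => sh s0 i (mu i) x.1 x.2).erase 0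

/-- **one good number** -/
theorem hit (m : ℕ) (C : ℕ → Finset ℕ) (A : Finset ℕ) (a0 a1 : ℕ) (h0 : a0 ∈ C 0)
    (h0m : ∀ a ∈ C 0, a0 ≤ a) (h1 : a1 ∈ A) (h1m : ∀ a ∈ A, a1 ≤ a) (β ρ k mm x N : ℕ)
    (hk : m + β ≤ k) (hmm : 3 * mm + 1 = 4 ^ (k + 1))
    (hN : Adm (HH m C A (a0 + a1)) β k mm (8 * (a0 + a1)) (ρ + (2 ^ β - 1) * a1) x N) :
    ∃ n, N = 8 * (n - (a0 + a1)) + mm ∧ a0 + a1 ≤ n ∧ n ≤ x ∧
      coeff n (EE m C (Dr A β ρ) * f1 ^ (4 ^ (k + 1))) = 1 := by
  have h8 : (8 : ℕ) ∣ 2 ^ (β + 3) := by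
    rw [pow_add]
    exact Dvd.intro_left _ rfl
  set ρ' := ρ + (2 ^ β - 1) * a1 with hρ'
  -- `N = 8 t + mm`
  obtain ⟨t, ht, ht2⟩ : ∃ t, N = 8 * t + mm ∧ t % 2 ^ β = ρ' % 2 ^ β := by
    have h4 : N ≡ 8 * ρ' + mm [MOD 2 ^ (β + 3)] := hN.cls
    have h5 : mm ≡ N [MOD 8] := by
      have := (h4.of_dvd h8).symm
      have h6 : 8 * ρ' + mm ≡ mm [MOD 8] := by
        unfold Nat.ModEq
        omega
      exact h6.symm.trans this
    have hge := hN.ge
    obtain ⟨t, ht⟩ := (Nat.modEq_iff_dvd' (by omega)).1 h5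
    refine ⟨t, by omega, ?_⟩
    have h6 : N = 8 * t + mm := by omega
    rw [h6] at h4
    have h7 : 8 * t ≡ 8 * ρ' [MOD 2 ^ (β + 3)] := Nat.ModEq.add_right_cancel' mm h4
    have h9 : (2 : ℕ) ^ (β + 3) = 8 * 2 ^ β := by rw [pow_add]; ring
    rw [h9] at h7
    exact Nat.ModEq.mul_left_cancel' (by norm_num) h7
  set s0 := a0 + a1 with hs0
  refine ⟨t + s0, by omega, by omega, ?_, ?_⟩
  · have := hN.le
    have := hN.ge
    omega
  rw [EE_mul m (k + 1) (by omega)]
  -- all terms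
  have hterm : ∀ i ∈ range (m + 1), ∀ a ∈ (C i).filter (fun a => a ≤ t + s0 ∧ 4 ^ i ∣ t + s0 - a),
      coeff ((t + s0 - a) / 4 ^ i) (Dr A β ρ * f1 ^ (4 ^ (k + 1 - i))) =
        if i = 0 ∧ a = a0 then 1 else 0 := by
    intro i hi a ha
    rw [mem_range] at hi
    rw [mem_filter] at ha
    obtain ⟨haC, hale, hdvd⟩ := ha
    have hmi := mu_spec (k + 1 - i)
    rw [coeff_Dr_mul A β ρ (k + 1 - i) _ (mu (k + 1 - i)) (by omega) hmi]
    set v := (t + s0 - a) / 4 ^ i with hv
    have hv4 : 4 ^ i * v = t + s0 - a := Nat.mul_div_cancel' hdvd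
    -- the single coefficients
    have hco : ∀ a' ∈ A.filter (· ≤ v), ¬ (i = 0 ∧ a = a0 ∧ a' = a1) →
        coeff (8 * (v - a') + mu (k + 1 - i)) (Db ^ mu (k + 1 - i)) = 0 := by
      intro a' ha' hne
      rw [mem_filter] at ha'
      have hki : k + 1 - i = (k - i) + 1 := by omega
      set P := 8 * (v - a') + mu (k + 1 - i) with hP
      have hmupos : 0 < mu (k + 1 - i) := by
        have h2 : 4 ^ 1 ≤ 4 ^ (k + 1 - i) := Nat.pow_le_pow_right (by norm_num) (by omega)
        omega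
      have hPpos : 0 < P := by omega
      -- `4 ^ i P = N - h`
      have hmul : 4 ^ i * mu (k + 1 - i) + mu i = mm := by
        have e1 : 4 ^ i * 4 ^ (k + 1 - i) = 4 ^ (k + 1) := by
          rw [← pow_add]
          congr 1
          omega
        have e2 := mu_spec i
        have e3 : 4 ^ i * (3 * mu (k + 1 - i) + 1) = 3 * mm + 1 := by rw [hmi, e1, hmm]
        have e4 : 3 * (4 ^ i * mu (k + 1 - i)) + 4 ^ i = 3 * mm + 1 := by rw [← e3]; ring
        omega
      have hkey : ((4 ^ i * P : ℕ) : ℤ) = (N : ℤ) - sh s0 i (mu i) a a' := by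
        have e1 : ((v - a' : ℕ) : ℤ) = (v : ℤ) - a' := by
          rw [Nat.cast_sub ha'.2]
        have e2 : ((4 ^ i * v : ℕ) : ℤ) = (t : ℤ) + s0 - a := by
          rw [hv4, Nat.cast_sub hale]
          push_cast
          ring
        have e3 : ((4 ^ i * mu (k + 1 - i) + mu i : ℕ) : ℤ) = mm := by exact_mod_cast hmul
        push_cast at e2 e3
        rw [hP]
        push_cast
        rw [e1]
        unfold sh
        have e4 : (N : ℤ) = 8 * t + mm := by exact_mod_cast ht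
        rw [e4]
        linear_combination 8 * e2 + e3
      have hne0 : sh s0 i (mu i) a a' ≠ 0 := by
        unfold sh
        by_cases hi0 : i = 0
        · subst hi0
          have g1 := h0m a haC
          have g2 := h1m a' ha'.1
          have g3 : mu 0 = 0 := by have := mu_spec 0; omega
          rw [g3]
          have g4 : a0 + a1 < a + a' := by
            by_contra hcon
            apply hne
            exact ⟨rfl, by omega, by omega⟩
          push_cast
          intro h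
          have g5 : ((a0 + a1 : ℕ) : ℤ) < ((a + a' : ℕ) : ℤ) := by exact_mod_cast g4
          push_cast at g5
          rw [hs0] at h
          push_cast at h
          linarith
        · intro h
          obtain ⟨i', rfl⟩ : ∃ i', i = i' + 1 := ⟨i - 1, by omega⟩
          have g1 := mu_spec (i' + 1)
          have g2 : 4 ^ (i' + 1) = 4 * 4 ^ i' := by rw [pow_succ]; ring
          have g3 : mu (i' + 1) % 2 = 1 := by omega
          have g4 : (8 * (a : ℤ) + 8 * 4 ^ (i' + 1) * a' - 8 * s0) = 8 * ((a : ℤ) + 4 ^ (i' + 1) * a' - s0) := by ring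
          have g5 : (mu (i' + 1) : ℤ) = -(8 * ((a : ℤ) + 4 ^ (i' + 1) * a' - s0)) := by linarith
          omega
      have hmem : sh s0 i (mu i) a a' ∈ HH m C A s0 := by
        unfold HH
        rw [mem_erase, mem_biUnion]
        refine ⟨hne0, i, mem_range.2 hi, ?_⟩
        rw [mem_image]
        exact ⟨(a, a'), mem_product.2 ⟨haC, ha'.1⟩, rfl⟩
      have hpos2 : (0 : ℤ) < (N : ℤ) - sh s0 i (mu i) a a' := by
        rw [← hkey]
        have : 0 < 4 ^ i * P := by positivity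
        exact_mod_cast this
      have hvan := hN.van _ hmem hpos2
      rw [← hkey, Int.toNat_natCast] at hvan
      have hc5 : 2 ^ (k - i) ≤ cnt5 P := by
        have g1 : 2 ^ (k - i) ≤ 2 ^ k := Nat.pow_le_pow_right (by norm_num) (by omega)
        exact (g1.trans hvan).trans (cnt5_four i P hPpos)
      exact van (k - i) (mu (k + 1 - i)) P (by rw [← hki]; exact hmi) hc5
    by_cases hia : i = 0 ∧ a = a0
    · obtain ⟨rfl, rfl⟩ := hia
      have hv' : v = t + a1 := by
        rw [pow_zero, one_mul] at hv4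
        omega
      have hcls : v % 2 ^ β = ρ % 2 ^ β := by
        have g1 : t ≡ ρ' [MOD 2 ^ β] := ht2
        have g2 : v ≡ ρ' + a1 [MOD 2 ^ β] := by
          rw [hv']
          exact g1.add_right a1
        have g3 : ρ' + a1 = ρ + 2 ^ β * a1 := by
          have g4 : 1 ≤ 2 ^ β := Nat.one_le_two_pow
          rw [hρ', add_assoc]
          congr 1
          obtain ⟨w, hw⟩ : ∃ w, 2 ^ β = w + 1 := ⟨2 ^ β - 1, by omega⟩
          rw [hw, Nat.add_sub_cancel]
          ring
        rw [g3] at g2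
        have g5 : ρ + 2 ^ β * a1 ≡ ρ [MOD 2 ^ β] := by
          unfold Nat.ModEq
          rw [Nat.add_mul_mod_self_left]
        exact g2.trans g5
      rw [if_pos hcls, if_pos (And.intro rfl rfl), Finset.sum_eq_single a1]
      · have g1 : mu (k + 1 - 0) = mm := by
          have := mu_spec (k + 1)
          rw [Nat.sub_zero]
          omega
        rw [g1]
        have g2 : 8 * (v - a1) + mm = N := by omega
        rw [g2]
        exact hN.one
      · intro a' ha' hne
        exact hco a' ha' fun h => hne h.2.2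
      · intro hnot
        exact absurd (mem_filter.2 ⟨h1, by omega⟩) hnot
    · rw [if_neg hia]
      split_ifs
      · refine Finset.sum_eq_zero fun a' ha' => hco a' ha' fun h => hia ⟨h.1, h.2.1⟩
      · rfl
  rw [Finset.sum_congr rfl fun i hi => Finset.sum_congr rfl (hterm i hi)]
  rw [Finset.sum_eq_single 0]
  · rw [Finset.sum_eq_single a0]
    · rw [if_pos ⟨rfl, rfl⟩]
    · intro a _ hne
      rw [if_neg fun h => hne h.2]
    · intro hnot
      exfalso
      apply hnot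
      rw [mem_filter]
      exact ⟨h0, by omega, by rw [pow_zero]; exact one_dvd _⟩
  · intro i _ hne
    refine Finset.sum_eq_zero fun a _ => ?_
    rw [if_neg fun h => hne h.1]
  · intro hnot
    exact absurd (mem_range.2 (by omega)) hnot

end Pool.Agent.Q281.AD
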