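import Pool.Agent.Q281.AD.Good

set_option autoImplicit false

/-!
# The numbers with an odd coefficient and even coefficients at all the shifts: the count
-/

namespace Pool.Agent.Q281.AD

open Finset Filter Topology
open Pool.Agent.Q132.EP
open Pool.Agent.H397R2.PP (Db)

/-- the admissible numbers -/
structure Adm (H : Finset ℤ) (b k m M0 ρ x N : ℕ) : Prop where
  le : N ≤ x
  ge : m + M0 ≤ N
  cls : N % 2 ^ (b + 3) = (8 * ρ + m) % 2 ^ (b + 3)
  one : PowerSeries.coeff N (Db ^ m) = 1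
  van : ∀ h ∈ H, 0 < (N : ℤ) - h → 2 ^ k ≤ cnt5 ((N : ℤ) - h).toNat

/-- the tuples give admissible numbers -/
lemma adm_core (H : Finset ℤ) (k m M0 b ρ x y z : ℕ) (hk : 2 ≤ k)
    (hm : 3 * m + 1 = 4 ^ (k + 1)) (hmz : m + M0 ≤ z) (c : Finset ℕ → ℕ)
    (hc : ∀ B ∈ powersetCard (2 ^ k - 2) (Q5 y z), IsCls m b ρ B (c B)) :
    ∃ T : Finset ℕ, (∀ N ∈ T, Adm H b k m M0 ρ x N) ∧
      ∑ B ∈ powersetCard (2 ^ k - 2) (Q5 y z), (GZ H k b x z (c B) B).card = T.card := by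
  classical
  set 𝓑 := powersetCard (2 ^ k - 2) (Q5 y z) with h𝓑
  set T : Finset (Σ _ : Finset ℕ, ℕ) := 𝓑.sigma fun B => GZ H k b x z (c B) B with hT
  have hTc : T.card = ∑ B ∈ 𝓑, (GZ H k b x z (c B) B).card := Finset.card_sigma _ _
  rw [← hTc]
  have hmem : ∀ t ∈ T, (∀ q ∈ t.1, q.Prime ∧ q ≤ z ∧ q % 8 = 5) ∧ t.1.card = 2 ^ k - 2 ∧
      IsCls m b ρ t.1 (c t.1) ∧ t.2 ∈ GZ H k b x z (c t.1) t.1 := by
    rintro ⟨B, p⟩ ht
    rw [hT, mem_sigma] at ht
    obtain ⟨h1, h2⟩ := ht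
    have h3 := mem_powersetCard.1 h1
    refine ⟨fun q hq => ?_, h3.2, hc B h1, h2⟩
    have h4 := h3.1 hq
    unfold Q5 at h4
    rw [mem_filter, mem_Ioc] at h4
    exact ⟨h4.2.1, h4.1.2, h4.2.2⟩
  have h8 : (8 : ℕ) ∣ 2 ^ (b + 3) := by
    rw [pow_add]
    exact Dvd.intro_left _ rfl
  set N : (Σ _ : Finset ℕ, ℕ) → ℕ := fun t => (∏ q ∈ t.1, q) * t.2 with hN
  refine ⟨T.image N, ?_, ?_⟩
  · intro n hn
    rw [mem_image] at hn
    obtain ⟨t, ht, rfl⟩ := hn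
    obtain ⟨a1, a2, a3, a4⟩ := hmem t ht
    unfold GZ at a4
    rw [mem_filter, mem_Icc] at a4
    obtain ⟨⟨a5, a6⟩, a7, a8, a9, a10⟩ := a4
    have hpos : 0 < ∏ q ∈ t.1, q := Finset.prod_pos fun q hq => (a1 q hq).1.pos
    have hpB : t.2 ∉ t.1 := fun h => by
      have := (a1 _ h).2.1
      omega
    have hp8 : t.2 % 8 = 5 := by
      have h6 : t.2 % 2 ^ (b + 3) % 8 = t.2 % 8 := Nat.mod_mod_of_dvd _ h8
      rw [a8] at h6
      rw [← h6]
      exact a3.2.2.1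
    refine ⟨?_, ?_, ?_, ?_, ?_⟩
    · rw [Nat.le_div_iff_mul_le hpos] at a6
      rw [hN]
      simp only
      rw [mul_comm]
      exact a6
    · have : t.2 ≤ (∏ q ∈ t.1, q) * t.2 := Nat.le_mul_of_pos_left _ hpos
      rw [hN]
      simp only
      omega
    · rw [← a3.2.2.2, hN]
      simp only
      rw [Nat.mul_mod, a8, ← Nat.mod_eq_of_lt a3.1, ← Nat.mul_mod, Nat.mod_eq_of_lt a3.1]
    · have h6 := one (k + 1) m (by omega) hm (insert t.2 t.1) (by
        intro q hq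
        rw [mem_insert] at hq
        rcases hq with rfl | hq
        · exact ⟨a7, hp8⟩
        · exact ⟨(a1 q hq).1, (a1 q hq).2.2⟩) (by
        rw [Finset.card_insert_of_notMem hpB, a2]
        have : 2 ^ 2 ≤ 2 ^ k := Nat.pow_le_pow_right (by norm_num) hk
        simp only [Nat.add_sub_cancel]
        omega)
      rw [Finset.prod_insert hpB, mul_comm] at h6
      exact h6
    · intro h hh hpos'
      rw [hN] at hpos' ⊢
      simp only at hpos' ⊢
      rw [Nat.cast_mul] at hpos' ⊢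
      exact a10 h hh hpos'
  · rw [Finset.card_image_of_injOn]
    intro t ht t' ht' he
    obtain ⟨a1, a2, a3, a4⟩ := hmem t ht
    obtain ⟨b1, b2, b3, b4⟩ := hmem t' ht'
    unfold GZ at a4 b4
    rw [mem_filter] at a4 b4
    obtain ⟨h2, h3⟩ := pair_inj (fun q hq => ⟨(a1 q hq).1, (a1 q hq).2.1⟩)
      (fun q hq => ⟨(b1 q hq).1, (b1 q hq).2.1⟩) a4.2.1 b4.2.1 a4.2.2.2.1 b4.2.2.2.1 he
    exact Sigma.ext h2 (heq_of_eq h3)

/-- **the count of the admissible numbers** -/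
theorem count_main (hS : S_SIEZ) (hMs : S_MAS) (hAPL : S_APL) (H : Finset ℤ) (hH : (0 : ℤ) ∉ H)
    (b k0 M0 : ℕ) (E : ℝ) : ∃ x0 : ℕ, ∀ x : ℕ, x0 ≤ x → ∃ k m : ℕ, k0 ≤ k ∧ 2 ≤ k ∧
      3 * m + 1 = 4 ^ (k + 1) ∧ ∀ ρ : ℕ, ∃ T : Finset ℕ, (∀ N ∈ T, Adm H b k m M0 ρ x N) ∧
      E * (Real.sqrt x / Real.log x ^ (199 / 200 : ℝ)) *
        (((Nat.sqrt (24 * (x / 2 ^ (2 * (k + 1))) + 1) : ℕ) : ℝ) + 1) ≤ (T.card : ℝ) := by
  classical
  obtain ⟨C, hC⟩ := ev_Big2 hMs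
  obtain ⟨x1, hx1⟩ := hAPL
  have hev : ∀ᶠ x : ℕ in atTop, (x1 : ℝ) ≤ Real.log x := log_tend.eventually_ge_atTop _
  set Hs : ℕ := H.sup Int.natAbs with hHs
  set Λ : ℝ := (H.card : ℝ) + Hs + 400 * 2 ^ (b + 1) + 400 * 2 ^ (k0 + 1) + M0 + 400 * (192 * |E| + 6) with hΛ
  have hev2 : ∀ᶠ x : ℕ in atTop, Λ ≤ LL x := LL_tend.eventually_ge_atTop _
  obtain ⟨x0, hx0⟩ := eventually_atTop.1 ((hC.and hev).and hev2)
  refine ⟨x0, fun x hx => ?_⟩
  obtain ⟨⟨h, e1⟩, e2⟩ := hx0 x hx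
  have hT := h.toBig.T
  have hTp := h.toBig.Tpos
  have hL := h.toBig.Lpos
  have hTL := h.T_le_L
  have hLb := h.toBig.Lbig
  have hx0r := h.toBig.xpos
  have hH0 : (0 : ℝ) ≤ H.card := Nat.cast_nonneg _
  have hHs0 : (0 : ℝ) ≤ Hs := Nat.cast_nonneg _
  have hM00 : (0 : ℝ) ≤ M0 := Nat.cast_nonneg _
  have hE0 : 0 ≤ |E| := abs_nonneg _
  have hp1 : (0 : ℝ) < 2 ^ (b + 1) := by positivity
  have hp2 : (0 : ℝ) < 2 ^ (k0 + 1) := by positivity
  have f1 : (H.card : ℝ) ≤ LL x := by rw [hΛ] at e2; linarith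
  have f2 : (Hs : ℝ) ≤ LL x := by rw [hΛ] at e2; linarith
  have f3 : 400 * (2 : ℝ) ^ (b + 1) ≤ LL x := by rw [hΛ] at e2; linarith
  have f4 : 400 * (2 : ℝ) ^ (k0 + 1) ≤ LL x := by rw [hΛ] at e2; linarith
  have f5 : (M0 : ℝ) ≤ LL x := by rw [hΛ] at e2; linarith
  have f6 : 400 * (192 * |E| + 6) ≤ LL x := by rw [hΛ] at e2; linarith
  have hb : (2 : ℝ) ^ b ≤ LL x / 200 := by
    rw [pow_succ] at f3
    linarith
  have hx1' : (x1 : ℝ) ≤ Real.exp (0.99 * Real.log x) := by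
    have h1 := Real.quadratic_le_exp_of_nonneg (show 0 ≤ 0.99 * Real.log x by positivity)
    nlinarith
  have hA' : (H.card : ℝ) ≤ Real.exp (0.05 * LL x) := by
    have h1 := Real.quadratic_le_exp_of_nonneg (show 0 ≤ 0.05 * LL x by positivity)
    nlinarith
  have hxx : LL x ≤ (x : ℝ) := by
    have h1 := Real.add_one_le_exp (Real.log x)
    rw [h.toBig.xexp] at h1
    linarith
  have hHx : ∀ a ∈ H, a ≠ 0 ∧ a.natAbs ≤ x := by
    intro a ha
    refine ⟨fun h0 => hH (h0 ▸ ha), ?_⟩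
    have h1 : a.natAbs ≤ Hs := Finset.le_sup (f := Int.natAbs) ha
    have h2 : (Hs : ℝ) ≤ x := f2.trans hxx
    have h3 : Hs ≤ x := by exact_mod_cast h2
    omega
  obtain ⟨k, hk1, hk2⟩ := exists_k (LL x / 200) (by linarith)
  obtain ⟨m', hm, -⟩ := Pool.Agent.H397R2.PP.NIL.cont_m k
  set m := 2 * m' + 1 with hmdef
  have hk : 2 ≤ k := by
    by_contra hcon
    have h1 : k ≤ 1 := by omega
    have h2 : (2 : ℝ) ^ (k + 1) ≤ 2 ^ 2 := pow_le_pow_right₀ (by norm_num) (by omega)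
    linarith
  have hkk : k0 ≤ k := by
    by_contra hcon
    push Not at hcon
    have h2 : (2 : ℝ) ^ (k + 1) ≤ 2 ^ (k0 + 1) := pow_le_pow_right₀ (by norm_num) (by omega)
    linarith
  have hbk1 : b < k + 1 := by
    have h1 : (2 : ℝ) ^ b < 2 ^ (k + 1) := lt_of_le_of_lt hb hk2
    exact (pow_lt_pow_iff_right₀ (by norm_num : (1 : ℝ) < 2)).1 h1
  have h2k : (2 : ℝ) ^ (k + 1) = 2 * 2 ^ k := by rw [pow_succ]; ring
  have h4k : ((4 ^ (k + 1) : ℕ) : ℝ) ≤ LL x ^ 2 / 10000 := by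
    have h1 : ((4 ^ (k + 1) : ℕ) : ℝ) = ((2 : ℝ) ^ (k + 1)) ^ 2 := by
      push_cast
      rw [← pow_mul, mul_comm (k + 1) 2, pow_mul]
      norm_num
    rw [h1]
    have h3 : (2 : ℝ) ^ (k + 1) ≤ LL x / 100 := by linarith
    calc ((2 : ℝ) ^ (k + 1)) ^ 2 ≤ (LL x / 100) ^ 2 := pow_le_pow_left₀ (by positivity) h3 2
      _ = LL x ^ 2 / 10000 := by ring
  have hmz : m + M0 ≤ zz x := by
    have h1 := h.toBig.z_low
    have h2 := h.toBig.w_low
    have h3 := Real.add_one_le_exp (Real.log x / (2000 * LL x))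
    have h4 : LL x ^ 2 ≤ (zz x : ℝ) := by nlinarith
    have h5 : (3 * (m : ℝ) + 1) ≤ LL x ^ 2 / 10000 := by
      have : ((3 * m + 1 : ℕ) : ℝ) = ((4 ^ (k + 1) : ℕ) : ℝ) := by exact_mod_cast hm
      push_cast at this
      push_cast at h4k
      linarith
    have h6 : (m : ℝ) + M0 ≤ zz x := by nlinarith
    exact_mod_cast h6
  refine ⟨k, m, hkk, hk, hm, fun ρ => ?_⟩
  -- the classes of the large primes
  have hcls : ∀ B : Finset ℕ, ∃ c : ℕ,
      B ∈ powersetCard (2 ^ k - 2) (Q5 (yy x) (zz x)) → IsCls m b ρ B c := by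
    intro B
    by_cases hB : B ∈ powersetCard (2 ^ k - 2) (Q5 (yy x) (zz x))
    · have h1 := mem_powersetCard.1 hB
      obtain ⟨c, hc⟩ := exists_cls k m b ρ hk hm B (fun q hq => by
        have := h1.1 hq
        unfold Q5 at this
        rw [mem_filter] at this
        exact this.2.2) h1.2
      exact ⟨c, fun _ => hc⟩
    · exact ⟨0, fun h => absurd h hB⟩
  choose c hc using hcls
  obtain ⟨T, hT1, hT2⟩ := adm_core H k m M0 b ρ x (yy x) (zz x) hk hm hmz c hc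
  refine ⟨T, hT1, ?_⟩
  have hTR : ∑ B ∈ powersetCard (2 ^ k - 2) (Q5 (yy x) (zz x)),
      ((GZ H k b x (zz x) (c B) B).card : ℝ) = (T.card : ℝ) := by
    exact_mod_cast hT2
  -- the lower bound of the sum
  have hb16 : (0 : ℝ) < 2 ^ (b + 4) * Real.log x := by positivity
  have hsum : (x : ℝ) / 2 * Real.exp (0.0075 * LL x - 6) / (2 ^ (b + 4) * Real.log x) ≤ (T.card : ℝ) := by
    rw [← hTR]
    have h1 : ∀ B ∈ powersetCard (2 ^ k - 2) (Q5 (yy x) (zz x)),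
        (x : ℝ) / 2 / (2 ^ (b + 4) * Real.log x) * ∏ q ∈ B, (1 : ℝ) / q ≤
          ((GZ H k b x (zz x) (c B) B).card : ℝ) := by
      intro B hB
      have h2 := mem_powersetCard.1 hB
      have h3 : ∀ q ∈ B, q ∈ Q5 (yy x) (zz x) := fun q hq => h2.1 hq
      have h4 : (B.card : ℝ) ≤ LL x / 200 := by
        rw [h2.2]
        refine le_trans ?_ hk1
        have : ((2 ^ k - 2 : ℕ) : ℝ) ≤ ((2 ^ k : ℕ) : ℝ) := by exact_mod_cast Nat.sub_le _ _
        push_cast at this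
        exact this
      have h5 := hc B hB
      have h6 := gz_low h hS hx1 hx1' H hHx hA' k b (c B) hk1 hb h5.1 h5.2.1 B h3 h4
      have h7 := h.U_half B h3 h4
      refine le_trans ?_ h6
      rw [div_mul_eq_mul_div]
      exact div_le_div_of_nonneg_right h7 hb16.le
    refine le_trans ?_ (Finset.sum_le_sum h1)
    rw [← Finset.mul_sum]
    have h2 := h.E_low k hk1 hk2
    calc (x : ℝ) / 2 * Real.exp (0.0075 * LL x - 6) / (2 ^ (b + 4) * Real.log x) =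
        (x : ℝ) / 2 / (2 ^ (b + 4) * Real.log x) * Real.exp (0.0075 * LL x - 6) := by ring
      _ ≤ _ := mul_le_mul_of_nonneg_left h2 (by positivity)
  -- the square root
  have hdiv : ((x / 2 ^ (2 * (k + 1)) : ℕ) : ℝ) ≤ x / ((2 : ℝ) ^ (k + 1)) ^ 2 := by
    refine Nat.cast_div_le.trans (le_of_eq ?_)
    push_cast
    rw [← pow_mul]
    congr 2
    ring
  set s := Real.sqrt x / 2 ^ (k + 1) with hs
  have hs2 : s ^ 2 = x / ((2 : ℝ) ^ (k + 1)) ^ 2 := by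
    rw [hs, div_pow, Real.sq_sqrt hx0r.le]
  have hs0 : 0 ≤ s := by positivity
  have hs100 : 100 ≤ s := by
    have h1 : (10000 : ℝ) ≤ s ^ 2 := by
      rw [hs2, le_div_iff₀ (by positivity)]
      have h2 : ((2 : ℝ) ^ (k + 1)) ^ 2 ≤ LL x ^ 2 := pow_le_pow_left₀ (by positivity) (by linarith) 2
      have h3 := Real.quadratic_le_exp_of_nonneg hL.le
      rw [h.toBig.xexp] at h3
      have h4 : LL x * 10 ^ 10 ≤ Real.log x := by linarith
      have h5 : (LL x * 10 ^ 10) ^ 2 ≤ Real.log x ^ 2 := pow_le_pow_left₀ (by positivity) h4 2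
      nlinarith
    nlinarith
  have hsq : ((Nat.sqrt (24 * (x / 2 ^ (2 * (k + 1))) + 1) : ℕ) : ℝ) + 1 ≤ 6 * s := by
    have h1 : ((Nat.sqrt (24 * (x / 2 ^ (2 * (k + 1))) + 1) : ℕ) : ℝ) ≤ 4.95 * s := by
      refine Real.nat_sqrt_le_real_sqrt.trans ?_
      rw [Real.sqrt_le_left (by positivity)]
      push_cast
      nlinarith
    linarith
  have hx2 : (x : ℝ) = s * (2 ^ (k + 1)) * Real.sqrt x := by
    rw [hs, div_mul_cancel₀ _ (by positivity), Real.mul_self_sqrt hx0r.le]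
  have hsx : 0 < Real.sqrt x := Real.sqrt_pos.2 hx0r
  -- the powers of the logarithm
  have hlp : 0 < Real.log x ^ (199 / 200 : ℝ) := Real.rpow_pos_of_pos hL _
  have hpow : |E| * (Real.sqrt x / Real.log x ^ (199 / 200 : ℝ)) ≤
      Real.sqrt x * Real.exp (0.0075 * LL x - 6) / (192 * Real.log x) := by
    have h1 : Real.log x ^ (199 / 200 : ℝ) = Real.exp (0.995 * LL x) := by
      rw [Real.rpow_def_of_pos hL]
      unfold LL
      congr 1
      ring
    rw [h1, ← mul_div_assoc, div_le_div_iff₀ (Real.exp_pos _) (by positivity)]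
    have h2 : |E| * 192 * Real.log x ≤ Real.exp (0.0075 * LL x - 6) * Real.exp (0.995 * LL x) := by
      rw [← h.toBig.LT, ← Real.exp_add]
      have h3 : |E| * 192 ≤ Real.exp (0.0025 * LL x - 6) := by
        have := Real.add_one_le_exp (0.0025 * LL x - 6)
        linarith
      calc |E| * 192 * Real.exp (LL x) ≤ Real.exp (0.0025 * LL x - 6) * Real.exp (LL x) :=
            mul_le_mul_of_nonneg_right h3 (Real.exp_pos _).le
        _ = Real.exp (0.0075 * LL x - 6 + 0.995 * LL x) := by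
            rw [← Real.exp_add]
            congr 1
            ring
    calc |E| * Real.sqrt x * (192 * Real.log x) = Real.sqrt x * (|E| * 192 * Real.log x) := by ring
      _ ≤ Real.sqrt x * (Real.exp (0.0075 * LL x - 6) * Real.exp (0.995 * LL x)) :=
          mul_le_mul_of_nonneg_left h2 hsx.le
      _ = _ := by ring
  have hs6 : 0 < 6 * s := by linarith
  have hb1 : (0 : ℝ) < 2 ^ b := by positivity
  have h21 : (x : ℝ) / 2 * Real.exp (0.0075 * LL x - 6) / (2 ^ (b + 4) * Real.log x) =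
      Real.sqrt x * Real.exp (0.0075 * LL x - 6) / (192 * Real.log x) * (6 * s) *
        (2 ^ (k + 1) / 2 ^ b) := by
    have h22 : (2 : ℝ) ^ (b + 4) = 16 * 2 ^ b := by rw [pow_add]; ring
    rw [h22]
    have key : ∀ L' E' : ℝ, 0 < L' → (x : ℝ) / 2 * E' / (16 * 2 ^ b * L') =
        Real.sqrt x * E' / (192 * L') * (6 * s) * (2 ^ (k + 1) / 2 ^ b) := by
      intro L' E' hL'
      conv_lhs => rw [hx2]
      field_simp
      ring
    exact key _ _ hL
  have h23 : (1 : ℝ) ≤ 2 ^ (k + 1) / 2 ^ b := by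
    rw [one_le_div hb1]
    exact pow_le_pow_right₀ (by norm_num) hbk1.le
  calc E * (Real.sqrt x / Real.log x ^ (199 / 200 : ℝ)) *
        (((Nat.sqrt (24 * (x / 2 ^ (2 * (k + 1))) + 1) : ℕ) : ℝ) + 1)
      ≤ |E| * (Real.sqrt x / Real.log x ^ (199 / 200 : ℝ)) *
        (((Nat.sqrt (24 * (x / 2 ^ (2 * (k + 1))) + 1) : ℕ) : ℝ) + 1) := by
        apply mul_le_mul_of_nonneg_right _ (by positivity)
        exact mul_le_mul_of_nonneg_right (le_abs_self E) (by positivity)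
    _ ≤ (Real.sqrt x * Real.exp (0.0075 * LL x - 6) / (192 * Real.log x)) * (6 * s) :=
        mul_le_mul hpow hsq (by positivity) (by positivity)
    _ ≤ Real.sqrt x * Real.exp (0.0075 * LL x - 6) / (192 * Real.log x) * (6 * s) *
        (2 ^ (k + 1) / 2 ^ b) := le_mul_of_one_le_right (by positivity) h23
    _ = _ := h21.symm
    _ ≤ (T.card : ℝ) := hsum

end Pool.Agent.Q281.AD
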