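import Pool.Agent.Q281.AD.Alg
import Pool.Agent.Q132.EP.Fwd
import Pool.Agent.Q124.AD.ORE
import Pool.Agent.Q124.AD.CLS
import Pool.Agent.Q124.AD.SIEZ
import Pool.Agent.Q129.EP.MAS
import Pool.Agent.Q129.EP.APL

set_option autoImplicit false

/-!
# The parity of the partition function against automatic sequences
-/

namespace Pool.Agent.Q281.AD

open Finset PowerSeries
open Pool.Agent.Q132.EP
open Pool.Agent.Q41.PT (f1)

/-- the shift of a sequence to the right -/
def shR (L : ℕ) (b : ℕ → ZMod 2) : ℕ → ZMod 2 := fun n => if n < L then 0 else b (n - L)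

/-- the shift to the right of an automatic sequence is automatic -/
lemma shf (b : ℕ → ZMod 2) (L : ℕ) (hb : IsAutomatic b) : IsAutomatic (shR L b) := by
  unfold IsAutomatic at hb ⊢
  refine (Set.Finite.image2 shR (Set.finite_Iic L) hb).subset ?_
  rintro s ⟨k, r, hr, rfl⟩
  have h2k : 0 < 2 ^ k := by positivity
  set t := (L - r + 2 ^ k - 1) / 2 ^ k with ht
  have e1 : L - r ≤ 2 ^ k * t := by
    have := Nat.div_add_mod (L - r + 2 ^ k - 1) (2 ^ k)
    have h2 := Nat.mod_lt (L - r + 2 ^ k - 1) h2k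
    rw [← ht] at this
    omega
  have e2 : 2 ^ k * t ≤ L - r + 2 ^ k - 1 := by
    rw [ht]
    exact Nat.mul_div_le _ _
  have e3 : t ≤ L := by
    by_contra hcon
    push Not at hcon
    have h1 : 2 ^ k * (L + 1) ≤ 2 ^ k * t := Nat.mul_le_mul_left _ hcon
    have h3 : L ≤ 2 ^ k * L := Nat.le_mul_of_pos_left _ h2k
    rw [mul_add, mul_one] at h1
    omega
  have e4 : L ≤ 2 ^ k * t + r := by omega
  have e5 : 2 ^ k * t + r - L < 2 ^ k := by
    by_cases hrL : r ≤ L
    · omega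
    · have h0 : L - r = 0 := by omega
      have h1 : 2 ^ k * t < 2 ^ k * 1 := by
        rw [mul_one]
        omega
      have h2 : t < 1 := Nat.lt_of_mul_lt_mul_left h1
      have h3 : t = 0 := Nat.lt_one_iff.1 h2
      rw [h3, mul_zero]
      omega
  refine ⟨t, e3, fun n => b (2 ^ k * n + (2 ^ k * t + r - L)), ⟨k, 2 ^ k * t + r - L, e5, rfl⟩, ?_⟩
  funext n
  unfold shR
  by_cases hn : n < t
  · rw [if_pos hn, if_pos]
    have h1 : 2 ^ k * (n + 1) ≤ 2 ^ k * t := Nat.mul_le_mul_left _ hn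
    rw [mul_add, mul_one] at h1
    by_cases hr2 : r ≤ L
    · omega
    · omega
  · push Not at hn
    obtain ⟨w, rfl⟩ := Nat.exists_eq_add_of_le hn
    have h1 : 2 ^ k * (t + w) = 2 ^ k * t + 2 ^ k * w := mul_add _ _ _
    have h3 : 2 ^ k * (t + w) + r - L = 2 ^ k * (t + w - t) + (2 ^ k * t + r - L) := by
      rw [Nat.add_sub_cancel_left]
      omega
    rw [if_neg (by omega), if_neg (by omega), h3]

/-- the number of the nonzero coefficients of the combination -/
lemma card_EE (b : ℕ → ZMod 2) (A : Finset ℕ) (β ρ m : ℕ) (C : ℕ → Finset ℕ)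
    (hrel : Rel (fun n => if n % 2 ^ β = ρ % 2 ^ β then b n else 0) m C) (x : ℕ) :
    ((range (x + 1)).filter fun u => coeff u (EE m C (Dr A β ρ)) ≠ 0).card ≤
      (∑ i ∈ range (m + 1), (C i).card) *
        ((range (x + 1)).filter fun v => v % 2 ^ β = ρ % 2 ^ β ∧ (psum A v : ZMod 2) ≠ b v).card := by
  classical
  set M := (range (x + 1)).filter fun v => v % 2 ^ β = ρ % 2 ^ β ∧ (psum A v : ZMod 2) ≠ b v with hM
  have hsub : ((range (x + 1)).filter fun u => coeff u (EE m C (Dr A β ρ)) ≠ 0) ⊆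
      (range (m + 1)).biUnion fun i => (C i).biUnion fun a => M.image fun v => 4 ^ i * v + a := by
    intro u hu
    rw [mem_filter, mem_range] at hu
    obtain ⟨hux, hu⟩ := hu
    have h1 : coeff u (EE m C (Dr A β ρ)) = ∑ i ∈ range (m + 1),
        ∑ a ∈ (C i).filter (fun a => a ≤ u ∧ 4 ^ i ∣ u - a),
          (coeff ((u - a) / 4 ^ i) (Dr A β ρ) +
            (if (u - a) / 4 ^ i % 2 ^ β = ρ % 2 ^ β then b ((u - a) / 4 ^ i) else 0)) := by
      simp only [Finset.sum_add_distrib]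
      rw [coeff_EE]
      have h2 := hrel u
      simp only at h2
      rw [h2, add_zero]
    rw [h1] at hu
    obtain ⟨i, hi, hu2⟩ := Finset.exists_ne_zero_of_sum_ne_zero hu
    obtain ⟨a, ha, hu3⟩ := Finset.exists_ne_zero_of_sum_ne_zero hu2
    rw [mem_filter] at ha
    obtain ⟨haC, hau, hdv⟩ := ha
    rw [mem_biUnion]
    refine ⟨i, hi, ?_⟩
    rw [mem_biUnion]
    refine ⟨a, haC, ?_⟩
    rw [mem_image]
    set v := (u - a) / 4 ^ i with hv
    have hv4 : 4 ^ i * v = u - a := Nat.mul_div_cancel' hdv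
    refine ⟨v, ?_, by omega⟩
    have hvu : v ≤ u := by
      have : v ≤ 4 ^ i * v := Nat.le_mul_of_pos_left _ (by positivity)
      omega
    rw [hM, mem_filter, mem_range]
    refine ⟨by omega, ?_⟩
    unfold Dr at hu3
    rw [coeff_mk, coeff_PA] at hu3
    by_cases hc : v % 2 ^ β = ρ % 2 ^ β
    · rw [if_pos hc, if_pos hc] at hu3
      refine ⟨hc, fun h => hu3 ?_⟩
      rw [h]
      exact CharTwo.add_self_eq_zero _
    · rw [if_neg hc, if_neg hc, add_zero] at hu3
      exact absurd rfl hu3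
  refine (card_le_card hsub).trans (card_biUnion_le.trans ?_)
  rw [Finset.sum_mul]
  refine Finset.sum_le_sum fun i _ => card_biUnion_le.trans ?_
  calc ∑ a ∈ C i, (M.image fun v => 4 ^ i * v + a).card ≤ ∑ _a ∈ C i, M.card :=
        Finset.sum_le_sum fun a _ => card_image_le
    _ = (C i).card * M.card := by rw [sum_const, smul_eq_mul]

/-- the count for the patterns with backward shifts -/
theorem back (b : ℕ → ZMod 2) (hb : IsAutomatic b) (A : Finset ℕ) (hA : A.Nonempty) (β ρ : ℕ) (E : ℝ) :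
    ∃ x0 : ℕ, ∀ x : ℕ, x0 ≤ x → E * (Real.sqrt x / Real.log x ^ (199 / 200 : ℝ)) ≤
      (((range (x + 1)).filter fun v => v % 2 ^ β = ρ % 2 ^ β ∧ (psum A v : ZMod 2) ≠ b v).card : ℝ) := by
  classical
  obtain ⟨m, C, hC, hrel⟩ := Pool.Agent.Q124.AD.ore _ (Pool.Agent.Q124.AD.cls b β ρ hb)
  set a0 := (C 0).min' hC with ha0
  set a1 := A.min' hA with ha1
  set W := ∑ i ∈ range (m + 1), (C i).card with hW
  have hW1 : 1 ≤ W := by
    have h1 : (C 0).card ≤ W := by
      rw [hW]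
      exact Finset.single_le_sum (f := fun i => (C i).card) (fun _ _ => Nat.zero_le _)
        (mem_range.2 (by omega))
    exact (Finset.card_pos.2 hC).trans_le h1
  have h0H : (0 : ℤ) ∉ HH m C A (a0 + a1) := by
    unfold HH
    exact Finset.notMem_erase _ _
  obtain ⟨x0, hx0⟩ := count_main Pool.Agent.Q124.AD.siez Pool.Agent.Q129.EP.mas Pool.Agent.Q129.EP.apl
    (HH m C A (a0 + a1)) h0H β (m + β) (8 * (a0 + a1)) (|E| * W)
  refine ⟨max x0 2, fun x hx => ?_⟩
  obtain ⟨k, mm, hk0, -, hmm, hT⟩ := hx0 x ((le_max_left _ _).trans hx)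
  obtain ⟨T, hT1, hT2⟩ := hT (ρ + (2 ^ β - 1) * a1)
  have hhit := fun N (hN : N ∈ T) => hit m C A a0 a1 (Finset.min'_mem _ _) (fun a ha => Finset.min'_le _ a ha)
    (Finset.min'_mem _ _) (fun a ha => Finset.min'_le _ a ha) β ρ k mm x N hk0 hmm (hT1 N hN)
  set g : ℕ → ℕ := fun N => (N - mm) / 8 + (a0 + a1) with hg
  have hgN : ∀ N ∈ T, g N ≤ x ∧ coeff (g N) (EE m C (Dr A β ρ) * f1 ^ (4 ^ (k + 1))) = 1 := by
    intro N hN
    obtain ⟨n, h1, h2, h3, h4⟩ := hhit N hN
    have h5 : g N = n := by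
      rw [hg]
      simp only
      omega
    rw [h5]
    exact ⟨h3, h4⟩
  have hinj : Set.InjOn g T := by
    intro N hN N' hN' h
    obtain ⟨n, h1, h2, -, -⟩ := hhit N hN
    obtain ⟨n', h1', h2', -, -⟩ := hhit N' hN'
    rw [hg] at h
    simp only at h
    omega
  have hcard := card_le_mul (fun u => coeff u (EE m C (Dr A β ρ)) ≠ 0) (2 * (k + 1)) 0 0 x (Nat.zero_le _)
    (T.image g) (by
      intro n hn
      rw [mem_image] at hn
      obtain ⟨N, hN, rfl⟩ := hn
      obtain ⟨h1, h2⟩ := hgN N hN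
      refine ⟨h1, by rw [pow_zero, Nat.mod_one, Nat.mod_one], ?_⟩
      have h4 : (4 : ℕ) ^ (k + 1) = 2 ^ (2 * (k + 1)) := by rw [pow_mul]; norm_num
      rw [h4] at h2
      exact pair1 _ (2 * (k + 1)) (g N) (by rw [h2]; exact one_ne_zero))
  rw [Finset.card_image_of_injOn hinj] at hcard
  set M := (((range (x + 1)).filter fun v => v % 2 ^ β = ρ % 2 ^ β ∧ (psum A v : ZMod 2) ≠ b v).card : ℝ)
    with hM
  set q := ((Nat.sqrt (24 * (x / 2 ^ (2 * (k + 1))) + 1) : ℕ) : ℝ) + 1 with hq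
  have hq0 : 0 < q := by positivity
  have h1 : (T.card : ℝ) ≤ (W : ℝ) * M * q := by
    have h2 : ((range (x + 1)).filter fun u => u % 2 ^ 0 = 0 % 2 ^ 0 ∧ coeff u (EE m C (Dr A β ρ)) ≠ 0).card ≤
        W * ((range (x + 1)).filter fun v => v % 2 ^ β = ρ % 2 ^ β ∧ (psum A v : ZMod 2) ≠ b v).card := by
      refine le_trans (card_le_card ?_) (card_EE b A β ρ m C hrel x)
      intro u hu
      rw [mem_filter] at hu ⊢
      exact ⟨hu.1, hu.2.2⟩
    have h3 := hcard.trans (Nat.mul_le_mul_right _ h2)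
    rw [hM, hq]
    exact_mod_cast h3
  have h2 : |E| * W * (Real.sqrt x / Real.log x ^ (199 / 200 : ℝ)) * q ≤ (W : ℝ) * M * q := hT2.trans h1
  have h3 : |E| * W * (Real.sqrt x / Real.log x ^ (199 / 200 : ℝ)) ≤ (W : ℝ) * M :=
    le_of_mul_le_mul_right h2 hq0
  have hWp : (0 : ℝ) < W := by exact_mod_cast hW1
  have h4 : |E| * (Real.sqrt x / Real.log x ^ (199 / 200 : ℝ)) ≤ M := by
    have h5 : (W : ℝ) * (|E| * (Real.sqrt x / Real.log x ^ (199 / 200 : ℝ))) ≤ (W : ℝ) * M := by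
      refine le_trans (le_of_eq ?_) h3
      ring
    exact le_of_mul_le_mul_left h5 hWp
  refine le_trans ?_ h4
  apply mul_le_mul_of_nonneg_right (le_abs_self E)
  have hx1 : (1 : ℝ) ≤ x := by
    have : 2 ≤ x := (le_max_right _ _).trans hx
    exact_mod_cast (by omega : 1 ≤ x)
  have : 0 ≤ Real.log x := Real.log_nonneg hx1
  positivity

end Pool.Agent.Q281.AD
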