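import Pool.Agent.Q281.AD.Final

set_option autoImplicit false

/-!
# Patterns with positive and negative shifts against automatic sequences
-/

namespace Pool.Agent.Q281.AD

open Finset Filter Topology
open Pool.Agent.Q132.EP

lemma hsl : Tendsto (fun x : ℕ => Real.sqrt (x : ℝ) / Real.log x) atTop atTop := by
  have h1 : Tendsto (fun x : ℝ => Real.log x / x ^ (1 / 2 : ℝ)) atTop (𝓝[>] 0) := by
    rw [tendsto_nhdsWithin_iff]
    refine ⟨(isLittleO_log_rpow_atTop (by norm_num : (0 : ℝ) < 1 / 2)).tendsto_div_nhds_zero, ?_⟩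
    filter_upwards [eventually_gt_atTop 1] with x hx
    have : 0 < Real.log x := Real.log_pos hx
    have hx0 : 0 < x := by linarith
    exact Set.mem_Ioi.2 (by positivity)
  have h2 := h1.inv_tendsto_nhdsGT_zero.comp (tendsto_natCast_atTop_atTop (R := ℝ))
  refine h2.congr fun x => ?_
  simp only [Function.comp, Pi.inv_apply]
  rw [inv_div, ← Real.sqrt_eq_rpow]

/-- **linear patterns of `p(n)` modulo 2 against automatic sequences** -/
theorem main (b : ℕ → ZMod 2) (hb : IsAutomatic b) (J : Finset ℤ) (hJ : J.Nonempty) (β ρ : ℕ) :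
    ∃ x0 : ℕ, ∀ x : ℕ, x0 ≤ x → Real.sqrt x / Real.log x ^ (199 / 200 : ℝ) ≤
      (((range (x + 1)).filter fun n => n % 2 ^ β = ρ % 2 ^ β ∧
        ((patSum J n : ℕ) : ZMod 2) ≠ b n).card : ℝ) := by
  classical
  set L : ℕ := J.sup Int.toNat with hLdef
  have hJL : ∀ j ∈ J, j ≤ (L : ℤ) := by
    intro j hj
    have h3 : j.toNat ≤ L := Finset.le_sup (f := Int.toNat) hj
    omega
  set A : Finset ℕ := J.image fun j => ((L : ℤ) - j).toNat with hA
  have hAne : A.Nonempty := hJ.image _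
  have hsum : ∀ n, patSum J n = psum A (n + L) := patSum_eq J L hJL
  obtain ⟨x0, hx0⟩ := back (shR L b) (shf b L hb) A hAne β (ρ + L) 2
  obtain ⟨x1, hx1⟩ := eventually_atTop.1 (hsl.eventually_ge_atTop (L : ℝ))
  obtain ⟨x2, hx2⟩ := eventually_atTop.1 (log_tend.eventually_ge_atTop (1 : ℝ))
  refine ⟨max x0 (max x1 x2), fun x hx => ?_⟩
  have h0 := hx0 x ((le_max_left _ _).trans hx)
  have h1 := hx1 x ((le_max_left _ _).trans ((le_max_right _ _).trans hx))
  have h2 := hx2 x ((le_max_right _ _).trans ((le_max_right _ _).trans hx))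
  set P : ℕ → Prop := fun u => ((psum A u : ℕ) : ZMod 2) ≠ shR L b u with hP
  have h3 := shift_count P (2 ^ β) ρ L x
  have h4 : ((range (x + 1)).filter fun n => n % 2 ^ β = ρ % 2 ^ β ∧ P (n + L)) =
      ((range (x + 1)).filter fun n => n % 2 ^ β = ρ % 2 ^ β ∧ ((patSum J n : ℕ) : ZMod 2) ≠ b n) := by
    apply Finset.filter_congr
    intro n _
    rw [hP]
    simp only
    rw [hsum n]
    unfold shR
    rw [if_neg (by omega), Nat.add_sub_cancel]
  rw [h4] at h3
  have h5 : ((range L).filter fun u => u % 2 ^ β = (ρ + L) % 2 ^ β).card ≤ L := by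
    refine (card_filter_le _ _).trans ?_
    rw [card_range]
  set y := Real.sqrt x / Real.log x ^ (199 / 200 : ℝ) with hy
  have h6 : (L : ℝ) ≤ y := by
    refine h1.trans ?_
    rw [hy]
    apply div_le_div_of_nonneg_left (Real.sqrt_nonneg _) (Real.rpow_pos_of_pos (by linarith) _)
    calc Real.log x ^ (199 / 200 : ℝ) ≤ Real.log x ^ (1 : ℝ) :=
          Real.rpow_le_rpow_of_exponent_le h2 (by norm_num)
      _ = Real.log x := Real.rpow_one _
  have h7 : (((range (x + 1)).filter fun u => u % 2 ^ β = (ρ + L) % 2 ^ β ∧ P u).card : ℝ) ≤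
      (((range (x + 1)).filter fun n => n % 2 ^ β = ρ % 2 ^ β ∧
        ((patSum J n : ℕ) : ZMod 2) ≠ b n).card : ℝ) + L := by
    exact_mod_cast h3.trans (Nat.add_le_add_left h5 _)
  have h8 : 2 * y ≤ (((range (x + 1)).filter fun u => u % 2 ^ β = (ρ + L) % 2 ^ β ∧ P u).card : ℝ) := h0
  linarith

end Pool.Agent.Q281.AD
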