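import Pool.Agent.Q281.AD.St
import Pool.Agent.Q132.EP.OddF

set_option autoImplicit false
set_option linter.unusedSectionVars false

/-!
# The good primes for integer shifts
-/

namespace Pool.Agent.Q281.AD

open Finset Filter Topology
open Pool.Agent.Q132.EP

/-- the good primes for the product of the primes in `B`, in the class `c` modulo `2 ^ (b + 3)` -/
def GZ (H : Finset ℤ) (k b x z c : ℕ) (B : Finset ℕ) : Finset ℕ :=
  (Icc 1 (x / ∏ q ∈ B, q)).filter fun p => p.Prime ∧ p % 2 ^ (b + 3) = c ∧ z < p ∧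
    ∀ h ∈ H, 0 < ((∏ q ∈ B, q : ℕ) : ℤ) * p - h → 2 ^ k ≤ cnt5 (((∏ q ∈ B, q : ℕ) : ℤ) * p - h).toNat

lemma gz_split (hS : S_SIEZ) (H : Finset ℤ) (k b x y z c K D : ℕ) (B : Finset ℕ) (hy : 64 ≤ y)
    (hyz : y ≤ z) (hB : ∀ q ∈ B, q ∈ Q5 y z) (hlog : 2 * (B.card + 2 ^ k) + Nat.log 2 x ≤ y)
    (hD : 1 ≤ D) (hzD : z ^ K ≤ D) (hK : 8 * (V y z + S5 y z) + 8 ≤ K)
    (hH : ∀ h ∈ H, h ≠ 0 ∧ h.natAbs ≤ x) :
    (((Icc 1 (x / ∏ q ∈ B, q)).filter fun p => p.Prime ∧ p % 2 ^ (b + 3) = c).card : ℝ) ≤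
      (GZ H k b x z c B).card + z + H.card *
        (((x / ∏ q ∈ B, q : ℕ) : ℝ) * (G5 y z (2 ^ k) + 2 / y) +
          ((2 : ℝ) ^ k * (z : ℝ) ^ (2 ^ k) * (50 + (D : ℝ) ^ 6) + z)) := by
  classical
  set Q := ∏ q ∈ B, q with hQ
  set U := x / Q with hU
  set bad : ℤ → Finset ℕ := fun h => (range (U + 1)).filter fun u : ℕ => u.Prime ∧ z < u ∧
    0 < (Q : ℤ) * u - h ∧ cnt5 ((Q : ℤ) * u - h).toNat < 2 ^ k with hbad
  set err : ℝ := (U : ℝ) * (G5 y z (2 ^ k) + 2 / y) +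
    ((2 : ℝ) ^ k * (z : ℝ) ^ (2 ^ k) * (50 + (D : ℝ) ^ 6) + z) with herr
  have hG0 : 0 ≤ G5 y z (2 ^ k) := by
    unfold G5
    have : 0 ≤ S5 y z := Finset.sum_nonneg fun _ _ => by positivity
    positivity
  have hsub : (Icc 1 U).filter (fun p => p.Prime ∧ p % 2 ^ (b + 3) = c) ⊆
      GZ H k b x z c B ∪ (Icc 1 z ∪ H.biUnion bad) := by
    intro p hp
    rw [mem_filter, mem_Icc] at hp
    rw [mem_union, mem_union, mem_Icc, mem_biUnion]
    by_cases h1 : p ≤ z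
    · exact Or.inr (Or.inl ⟨hp.1.1, h1⟩)
    · by_cases h2 : ∀ h ∈ H, 0 < (Q : ℤ) * p - h → 2 ^ k ≤ cnt5 ((Q : ℤ) * p - h).toNat
      · left
        unfold GZ
        rw [mem_filter, mem_Icc]
        exact ⟨hp.1, hp.2.1, hp.2.2, by omega, h2⟩
      · push Not at h2
        obtain ⟨a, ha, h3, h4⟩ := h2
        right; right
        refine ⟨a, ha, ?_⟩
        rw [hbad]
        simp only [mem_filter, mem_range]
        exact ⟨by omega, hp.2.1, by omega, h3, h4⟩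
  have hbadc : ∀ h ∈ H, ((bad h).card : ℝ) ≤ err := by
    intro h hh
    obtain ⟨h0, hx⟩ := hH h hh
    have hl : Nat.log 2 h.natAbs ≤ Nat.log 2 x := Nat.log_mono_right hx
    have h1 := hS B h U y z K D (2 ^ k) hy hyz h0 hB (by omega) hD hzD hK
    refine h1.trans (le_of_eq ?_)
    rw [herr]
    unfold G5
    push_cast
    ring
  have hcard := (card_le_card hsub).trans (card_union_le _ _)
  have hcard2 : (Icc 1 z ∪ H.biUnion bad).card ≤ z + ∑ a ∈ H, (bad a).card := by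
    refine (card_union_le _ _).trans ?_
    have h1 : (Icc 1 z).card = z := by rw [Nat.card_Icc]; omega
    rw [h1]
    exact Nat.add_le_add_left card_biUnion_le _
  have h1 : (((Icc 1 U).filter (fun p => p.Prime ∧ p % 2 ^ (b + 3) = c)).card : ℝ) ≤
      (GZ H k b x z c B).card + (z + ∑ a ∈ H, ((bad a).card : ℝ)) := by
    have := hcard.trans (Nat.add_le_add_left hcard2 _)
    exact_mod_cast this
  have h2 : ∑ a ∈ H, ((bad a).card : ℝ) ≤ H.card * err := by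
    calc ∑ a ∈ H, ((bad a).card : ℝ) ≤ ∑ _a ∈ H, err := sum_le_sum hbadc
      _ = (H.card : ℝ) * err := by rw [sum_const, nsmul_eq_mul]
  linarith

/-- **the good primes for one product** -/
lemma gz_low {C : ℝ} {x : ℕ} (h : Big2 C x) (hS : S_SIEZ) {x0 : ℕ} (hAPL : ∀ X : ℕ, x0 ≤ X → ∀ b a : ℕ, 1 ≤ b →
      ((2 : ℝ) ^ b) ≤ Real.log X → a < 2 ^ b → a % 2 = 1 →
      (X : ℝ) / (2 ^ b * Real.log X) ≤ (((Icc 1 X).filter (fun p => p.Prime ∧ p % 2 ^ b = a)).card : ℝ))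
    (hx0 : (x0 : ℝ) ≤ Real.exp (0.99 * Real.log x))
    (H : Finset ℤ) (hH : ∀ h ∈ H, h ≠ 0 ∧ h.natAbs ≤ x) (hA : (H.card : ℝ) ≤ Real.exp (0.05 * LL x)) (k b c : ℕ)
    (hk : (2 : ℝ) ^ k ≤ LL x / 200) (hb : (2 : ℝ) ^ b ≤ LL x / 200) (hc : c < 2 ^ (b + 3))
    (hc2 : c % 2 = 1) (B : Finset ℕ) (hB : ∀ q ∈ B, q ∈ Q5 (yy x) (zz x))
    (hBc : (B.card : ℝ) ≤ LL x / 200) :
    ((x / ∏ q ∈ B, q : ℕ) : ℝ) / (2 ^ (b + 4) * Real.log x) ≤ (GZ H k b x (zz x) c B).card := by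
  have hT := h.toBig.T
  have hTp := h.toBig.Tpos
  have hL := h.toBig.Lpos
  have hTL := h.T_le_L
  have hLb := h.toBig.Lbig
  have hU := h.U_low B hB hBc
  have hUx : ((x / ∏ q ∈ B, q : ℕ) : ℝ) ≤ x := by exact_mod_cast Nat.div_le_self _ _
  have hsplit := gz_split hS H k b x (yy x) (zz x) c (KK x) (DD x) B h.toBig.y64 h.toBig.yz hB
    (h.log_ok k B.card hk hBc) h.toBig.D1 h.toBig.zKD h.K_ok hH
  have herr := h.errs (range H.card) (by rw [card_range]; exact hA) k hk _ hU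
  rw [card_range] at herr
  set U : ℕ := x / ∏ q ∈ B, q with hUdef
  have hU0 : (0 : ℝ) < U := lt_of_lt_of_le (Real.exp_pos _) hU
  have hlogU : 0.99 * Real.log x ≤ Real.log U := by
    rw [← Real.log_exp (0.99 * Real.log x)]
    exact Real.log_le_log (Real.exp_pos _) hU
  have hlogU2 : Real.log U ≤ Real.log x := Real.log_le_log hU0 hUx
  have h8 : (2 : ℝ) ^ (b + 3) = 8 * 2 ^ b := by rw [pow_add]; ring
  have h16 : (2 : ℝ) ^ (b + 4) = 16 * 2 ^ b := by rw [pow_add]; ring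
  have h1 := hAPL U (by exact_mod_cast hx0.trans hU) (b + 3) c (by omega)
    (by rw [h8]; linarith) hc hc2
  have h2 : (U : ℝ) / (2 ^ (b + 3) * Real.log x) ≤ U / (2 ^ (b + 3) * Real.log U) := by
    apply div_le_div_of_nonneg_left hU0.le
    · have : 0 < Real.log U := by linarith
      positivity
    · exact mul_le_mul_of_nonneg_left hlogU2 (by positivity)
  have h3 : (U : ℝ) / (LL x * Real.log x) ≤ U / (2 ^ (b + 4) * Real.log x) := by
    apply div_le_div_of_nonneg_left hU0.le (by positivity)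
    apply mul_le_mul_of_nonneg_right _ hL.le
    rw [h16]
    linarith
  have h4 : (U : ℝ) / (2 ^ (b + 3) * Real.log x) =
      U / (2 ^ (b + 4) * Real.log x) + U / (2 ^ (b + 4) * Real.log x) := by
    rw [h8, h16]
    field_simp
    ring
  linarith

end Pool.Agent.Q281.AD
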