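import Pool.Agent.Q132.EP.St

set_option autoImplicit false

/-!
# The parity of `p(n)` against automatic sequences: statements (MP_ebc808_nt, project AD of helper281)

The target: for every 2-automatic sequence `b`, every linear pattern `∑ p(n + j)`, `j ∈ J`, and every class modulo a
power of two, the pattern differs from `b n` modulo 2 for at least `√x / (log x) ^ (199 / 200)` of the `n ≤ x` in the
class.
-/

namespace Pool.Agent.Q281.AD

open Finset
open Pool.Agent.Q132.EP (cnt5 Q5 S5 V)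

/-- the 2-kernel of a sequence: the sequences `n ↦ b (2 ^ k n + r)`, `r < 2 ^ k` -/
def kernel2 (b : ℕ → ZMod 2) : Set (ℕ → ZMod 2) :=
  {s | ∃ k r : ℕ, r < 2 ^ k ∧ s = fun n => b (2 ^ k * n + r)}

/-- 2-automatic sequences: the 2-kernel is finite -/
def IsAutomatic (b : ℕ → ZMod 2) : Prop := (kernel2 b).Finite

/-- a relation `∑ c_i(X) B(X) ^ (4 ^ i) = 0` for the generating function `B` of `b`; `C i` is the set of the exponents
of the polynomial `c_i` -/
def Rel (b : ℕ → ZMod 2) (m : ℕ) (C : ℕ → Finset ℕ) : Prop :=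
  ∀ n : ℕ, ∑ i ∈ range (m + 1), ∑ a ∈ (C i).filter (fun a => a ≤ n ∧ 4 ^ i ∣ n - a), b ((n - a) / 4 ^ i) = 0

/-- **Job ORE.** Automatic sequences satisfy a relation with nonzero first coefficient.

PROOF. Let `K = kernel2 b`, finite. It contains `b` (`k = 0`) and with `s` the four sequences `n ↦ s (4 n + e)`, `e < 4`
(`b (2 ^ k (4 n + e) + r) = b (2 ^ (k + 2) n + (2 ^ k e + r))`). For `s ∈ K` let `g s = PowerSeries.mk s` over `ZMod 2`.
Since `f ^ (4 ^ i)` is `f (X ^ (4 ^ i))` over `ZMod 2` (`Pool.Agent.Q41.PT`/`H397R2.PP.TH`: `pow_eq_expand'`, used in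
`Pool.Agent.Q132.EP.coeff_mul_expand`, file `Q132/EP/Pair.lean`), `g s = ∑_{e < 4} X ^ e (g s_e) ^ 4`, hence
`(g s) ^ (4 ^ i) = ∑_{e < 4} X ^ (e 4 ^ i) (g s_e) ^ (4 ^ (i + 1))`. Let `R = Polynomial (ZMod 2)` and let `M i` be the
`R`-span of the `(g s) ^ (4 ^ i)`, `s ∈ K`, in `PowerSeries (ZMod 2)` (an `R`-algebra). So `M i ≤ M (i + 1)` and the
`m + 1` elements `(g b) ^ (4 ^ i)`, `i ≤ m`, are in `M m`, a span of at most `card K` elements. Take `m = card K`; by
`linearIndependent_le_span'` (strong rank condition for the commutative ring `R`) they are not linearly independent,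
and there are polynomials `c_0, ..., c_m`, not all `0`, with `∑ c_i (g b) ^ (4 ^ i) = 0`. Let `i0` be the least index
with `c_{i0} ≠ 0`, `q = 4 ^ i0`, and take the coefficients at `q n + s`, `s < q`: with `C i` = support of `c_i`,
`0 = ∑_{i ≥ i0} ∑_{a ∈ C i, a ≤ q n + s, 4 ^ i ∣ q n + s - a} b ((q n + s - a) / 4 ^ i)`. Since `q ∣ 4 ^ i` only the
`a = q a' + s` occur, and `(q n + s - a) / 4 ^ i = (n - a') / 4 ^ (i - i0)`. So `Rel b (m - i0) C'` holds for
`C' i = {a' | q a' + s ∈ C (i + i0)}` for every `s < q`, and `C' 0` is nonempty for `s = a % q`, `a ∈ C i0`. -/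
def J_ORE : Prop := ∀ b : ℕ → ZMod 2, IsAutomatic b → ∃ (m : ℕ) (C : ℕ → Finset ℕ), (C 0).Nonempty ∧ Rel b m C

/-- **Job CLS.** The restriction of an automatic sequence to a class modulo `2 ^ β` is automatic.

PROOF. Let `b'` be the restriction. An element `n ↦ b' (2 ^ k n + r)` of the kernel of `b'` with `k ≥ β` is either
`n ↦ b (2 ^ k n + r)` (if `r ≡ ρ (mod 2 ^ β)`) or `0`, because `2 ^ k n + r ≡ r (mod 2 ^ β)`. The elements with `k < β`
are finitely many (`r < 2 ^ k < 2 ^ β`). So the kernel of `b'` is contained in the union of the kernel of `b`, `{0}` and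
the image of `range β ×ˢ range (2 ^ β)`. -/
def J_CLS : Prop := ∀ (b : ℕ → ZMod 2) (β ρ : ℕ), IsAutomatic b →
  IsAutomatic fun n => if n % 2 ^ β = ρ % 2 ^ β then b n else 0

/-- **Job SIEZ.** `Pool.Agent.Q132.EP.S_SIE` for integer shifts `h ≠ 0` (positive or negative).

PROOF. Word for word the proofs of `S_SIA` and `S_SIE` (files `Q149/EP/Sia.lean` and `Q149/EP/Sie.lean`, 600 lines; copy
both files, first prove the version of `S_SIA` for `h : ℤ`, `h ≠ 0`, with `Nat.log 2 h.natAbs`), with these changes: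
`rt Q h p` is the set of the `x < p` with `(p : ℤ) ∣ Q x - h`, `h : ℤ`; `p ∣ h` becomes `(p : ℤ) ∣ h`, i.e.
`p ∣ h.natAbs`; `omega_le_log` is used for `h.natAbs`; `Q * u - h` (natural subtraction) becomes `(Q u - h).toNat`,
with `((Q u - h).toNat : ℤ) = Q u - h` as `0 < Q u - h`. -/
def S_SIEZ : Prop := ∀ (B : Finset ℕ) (h : ℤ) (U y z K D R : ℕ), 64 ≤ y → y ≤ z → h ≠ 0 →
  (∀ q ∈ B, q ∈ Q5 y z) → 2 * (B.card + R) + Nat.log 2 h.natAbs ≤ y → 1 ≤ D → z ^ K ≤ D →
  8 * (V y z + S5 y z) + 8 ≤ K →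
  (((range (U + 1)).filter (fun u : ℕ => u.Prime ∧ z < u ∧ 0 < ((∏ q ∈ B, q : ℕ) : ℤ) * u - h ∧
      cnt5 (((∏ q ∈ B, q : ℕ) : ℤ) * u - h).toNat < R)).card : ℝ) ≤
    50 * U * Real.exp (-(V y z + S5 y z)) * (∑ j ∈ range R, S5 y z ^ j / (j.factorial : ℝ)) +
      R * (z : ℝ) ^ R * (50 + (D : ℝ) ^ 6) + 2 * U / y + z

end Pool.Agent.Q281.AD
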